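import Pool.Agent.W142.TF.Stm3

set_option autoImplicit false
open Filter Topology Finset
open scoped BoundedContinuousFunction

/-! Project TF: almost periodicity modulo a large prime. -/

namespace Pool.Agent.W880.TF

open Pool.Agent.W634.BQ Pool.Agent.W505.BQ Pool.Agent.W27.FB Pool.Agent.W142.TF

theorem pow_sub (a b : Circle) (z : ℕ) :
    ‖(a : ℂ) ^ z - (b : ℂ) ^ z‖ ≤ z * ‖(a : ℂ) - b‖ := by
  induction z with
  | zero => simp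
  | succ z ih =>
    have e : (a : ℂ) ^ (z + 1) - (b : ℂ) ^ (z + 1) = (a : ℂ) ^ z * (a - b) + ((a : ℂ) ^ z - b ^ z) * b := by
      ring
    rw [e]
    refine (norm_add_le _ _).trans ?_
    rw [norm_mul, norm_mul, norm_pow, Circle.norm_coe, Circle.norm_coe, one_pow, one_mul, mul_one]
    push_cast
    linarith

theorem geom_zero {ζ : Circle} {p : ℕ} (h1 : ζ ^ p = 1) (h2 : ζ ≠ 1) :
    ∑ z ∈ range p, (ζ : ℂ) ^ z = 0 := by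
  have h3 : (ζ : ℂ) ≠ 1 := fun h => h2 (Circle.ext (by rw [h, Circle.coe_one]))
  rw [geom_sum_eq h3]
  have h4 : (ζ : ℂ) ^ p = 1 := by
    rw [← Circle.coe_pow, h1, Circle.coe_one]
  rw [h4, sub_self, zero_div]

theorem split_pow (θ : Circle) (x : ℤ) (S d z : ℕ) :
    ((θ ^ (x + S * d * z : ℤ) : Circle) : ℂ) = ((θ ^ x : Circle) : ℂ) * ((((θ ^ S) ^ d : Circle) : ℂ)) ^ z := by
  rw [zpow_add, Circle.coe_mul]
  congr 1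
  have : (θ ^ ((S : ℤ) * d * z) : Circle) = ((θ ^ S) ^ d) ^ z := by
    rw [← pow_mul, ← pow_mul, ← zpow_natCast]
    push_cast
    rw [mul_assoc]
  rw [this, Circle.coe_pow]

theorem one1 {P : ℤ →ᵇ ℝ} {Λ : Finset Circle} {c : Circle → ℂ}
    (hP : ∀ n : ℤ, ((P n : ℝ) : ℂ) = ∑ θ ∈ Λ, c θ * ((θ ^ n : Circle) : ℂ)) {S d p : ℕ} {δ : ℝ}
    (hζ : ∀ θ ∈ Λ, ∃ ζ : Circle, ζ ^ p = 1 ∧ (θ ^ S ≠ 1 → ζ ≠ 1) ∧
      ‖(((θ ^ S) ^ d : Circle) : ℂ) - (ζ : ℂ)‖ ≤ δ) (x : ℤ) :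
    |P (x + S * d * p) - P x| ≤ (∑ θ ∈ Λ, ‖c θ‖) * (p * δ) := by
  rw [← Real.norm_eq_abs, ← Complex.norm_real]
  push_cast
  rw [hP, hP, ← sum_sub_distrib, sum_mul]
  refine (norm_sum_le _ _).trans (sum_le_sum fun θ hθ => ?_)
  obtain ⟨ζ, h1, _, h3⟩ := hζ θ hθ
  rw [split_pow]
  have e : c θ * (((θ ^ x : Circle) : ℂ) * (((θ ^ S) ^ d : Circle) : ℂ) ^ p) -
      c θ * ((θ ^ x : Circle) : ℂ) =
      c θ * ((θ ^ x : Circle) : ℂ) * ((((θ ^ S) ^ d : Circle) : ℂ) ^ p - (ζ : ℂ) ^ p) := by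
    have h4 : (ζ : ℂ) ^ p = 1 := by
      rw [← Circle.coe_pow, h1, Circle.coe_one]
    rw [h4]
    ring
  rw [e, norm_mul, norm_mul, Circle.norm_coe, mul_one]
  refine mul_le_mul_of_nonneg_left ?_ (norm_nonneg _)
  refine (pow_sub _ _ _).trans ?_
  exact mul_le_mul_of_nonneg_left h3 (Nat.cast_nonneg _)

theorem one2 {P : ℤ →ᵇ ℝ} {Λ : Finset Circle} {c : Circle → ℂ}
    (hP : ∀ n : ℤ, ((P n : ℝ) : ℂ) = ∑ θ ∈ Λ, c θ * ((θ ^ n : Circle) : ℂ)) {q S d p : ℕ} {δ : ℝ}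
    (hS : 1 ≤ S) (hT : ∀ θ ∈ Λ, (∃ k : ℕ, 0 < k ∧ θ ^ k = 1) → θ ^ q = 1)
    (hζ : ∀ θ ∈ Λ, ∃ ζ : Circle, ζ ^ p = 1 ∧ (θ ^ S ≠ 1 → ζ ≠ 1) ∧
      ‖(((θ ^ S) ^ d : Circle) : ℂ) - (ζ : ℂ)‖ ≤ δ) (x y : ℤ) (hxy : (q : ℤ) ∣ x - y) :
    |∑ z ∈ range p, P (x + S * d * z) - ∑ z ∈ range p, P (y + S * d * z)| ≤
      (∑ θ ∈ Λ, ‖c θ‖) * (2 * (p * (p * δ))) := by
  rw [← Real.norm_eq_abs, ← Complex.norm_real]
  push_cast
  have e1 : ∀ x : ℤ, ∑ z ∈ range p, ((P (x + S * d * z) : ℝ) : ℂ) =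
      ∑ θ ∈ Λ, c θ * ((θ ^ x : Circle) : ℂ) * ∑ z ∈ range p, (((θ ^ S) ^ d : Circle) : ℂ) ^ z := by
    intro x
    have : ∀ z ∈ range p, ((P (x + S * d * z) : ℝ) : ℂ) =
        ∑ θ ∈ Λ, c θ * ((θ ^ x : Circle) : ℂ) * (((θ ^ S) ^ d : Circle) : ℂ) ^ z := by
      intro z _
      rw [hP]
      refine sum_congr rfl fun θ _ => ?_
      rw [split_pow]
      ring
    rw [sum_congr rfl this, sum_comm]
    refine sum_congr rfl fun θ _ => ?_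
    rw [mul_sum]
  rw [e1, e1, ← sum_sub_distrib, sum_mul]
  refine (norm_sum_le _ _).trans (sum_le_sum fun θ hθ => ?_)
  obtain ⟨ζ, h1, h2, h3⟩ := hζ θ hθ
  have hδ : 0 ≤ δ := (norm_nonneg _).trans h3
  by_cases hθ1 : θ ^ S = 1
  · have h4 := hT θ hθ ⟨S, by omega, hθ1⟩
    have h5 : θ ^ x = θ ^ y := by
      obtain ⟨k, hk⟩ := hxy
      have h6 : x = y + q * k := by linarith
      rw [h6, zpow_add, zpow_mul, zpow_natCast, h4, one_zpow, mul_one]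
    rw [h5, sub_self, norm_zero]
    positivity
  · have h4 : ‖∑ z ∈ range p, (((θ ^ S) ^ d : Circle) : ℂ) ^ z‖ ≤ p * (p * δ) := by
      have h5 : ∑ z ∈ range p, (((θ ^ S) ^ d : Circle) : ℂ) ^ z =
          ∑ z ∈ range p, ((((θ ^ S) ^ d : Circle) : ℂ) ^ z - (ζ : ℂ) ^ z) := by
        rw [sum_sub_distrib, geom_zero h1 (h2 hθ1), sub_zero]
      rw [h5]
      refine (norm_sum_le _ _).trans ?_
      have h6 : ∀ z ∈ range p, ‖(((θ ^ S) ^ d : Circle) : ℂ) ^ z - (ζ : ℂ) ^ z‖ ≤ p * δ := by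
        intro z hz
        refine (pow_sub _ _ _).trans ?_
        refine mul_le_mul ?_ h3 (norm_nonneg _) (Nat.cast_nonneg _)
        exact_mod_cast (mem_range.1 hz).le
      have := sum_le_card_nsmul (range p) _ _ h6
      rwa [card_range, nsmul_eq_mul] at this
    have e : c θ * ((θ ^ x : Circle) : ℂ) * ∑ z ∈ range p, (((θ ^ S) ^ d : Circle) : ℂ) ^ z -
        c θ * ((θ ^ y : Circle) : ℂ) * ∑ z ∈ range p, (((θ ^ S) ^ d : Circle) : ℂ) ^ z =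
        c θ * ((((θ ^ x : Circle) : ℂ) - ((θ ^ y : Circle) : ℂ)) *
          ∑ z ∈ range p, (((θ ^ S) ^ d : Circle) : ℂ) ^ z) := by ring
    rw [e, norm_mul, norm_mul]
    refine mul_le_mul_of_nonneg_left (mul_le_mul ?_ h4 (norm_nonneg _) (by norm_num)) (norm_nonneg _)
    refine (norm_sub_le _ _).trans ?_
    rw [Circle.norm_coe, Circle.norm_coe]
    norm_num

/-- TF-PER -/
theorem per (hk : S_kro) : S_per := by
  classical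
  intro n P q S h
  have h1 : ∀ j : ℕ, ∃ (Λ : Finset Circle) (c : Circle → ℂ), j < n →
      (∀ n : ℤ, ((P j n : ℝ) : ℂ) = ∑ θ ∈ Λ, c θ * ((θ ^ n : Circle) : ℂ)) ∧
      ∀ θ ∈ Λ, (∃ k : ℕ, 0 < k ∧ θ ^ k = 1) → θ ^ q j = 1 := by
    intro j
    by_cases hj : j < n
    · obtain ⟨Λ, c, h1, h2⟩ := (h j hj).1
      exact ⟨Λ, c, fun _ => ⟨h1, h2⟩⟩
    · exact ⟨∅, fun _ => 0, fun h => absurd h hj⟩
  choose Λ c hΛ using h1
  obtain ⟨P₀, hP₀⟩ := hk ((range n).biUnion fun j => (Λ j).image fun θ => θ ^ S j) (by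
    intro lam hlam hne k hk0 hk1
    obtain ⟨j, hj, h2⟩ := mem_biUnion.1 hlam
    obtain ⟨θ, hθ, rfl⟩ := mem_image.1 h2
    have hj := mem_range.1 hj
    obtain ⟨_, _, h5, ⟨t, ht⟩⟩ := h j hj
    have h6 := (hΛ j hj).2 θ hθ ⟨S j * k, by positivity, by rw [pow_mul]; exact hk1⟩
    apply hne
    rw [ht, pow_mul, h6, one_pow])
  refine ⟨P₀, fun p hp hpP δ hδ => ?_⟩
  obtain ⟨A, hA⟩ : ∃ A : ℝ, A = ∑ j ∈ range n, ∑ θ ∈ Λ j, ‖c j θ‖ := ⟨_, rfl⟩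
  have hA0 : 0 ≤ A := by
    rw [hA]
    exact sum_nonneg fun _ _ => sum_nonneg fun _ _ => norm_nonneg _
  have hp0 : (0 : ℝ) < p := by exact_mod_cast hp.pos
  obtain ⟨d, hd⟩ := hP₀ p hp hpP (δ / (2 * (A + 1) * p)) (by positivity)
  refine ⟨d, fun j hj => ?_⟩
  have hζ : ∀ θ ∈ Λ j, ∃ ζ : Circle, ζ ^ p = 1 ∧ (θ ^ S j ≠ 1 → ζ ≠ 1) ∧
      ‖(((θ ^ S j) ^ d : Circle) : ℂ) - (ζ : ℂ)‖ ≤ δ / (2 * (A + 1) * p) := fun θ hθ =>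
    hd (θ ^ S j) (mem_biUnion.2 ⟨j, mem_range.2 hj, mem_image.2 ⟨θ, hθ, rfl⟩⟩)
  have hAj : ∑ θ ∈ Λ j, ‖c j θ‖ ≤ A := by
    rw [hA]
    exact single_le_sum (f := fun j => ∑ θ ∈ Λ j, ‖c j θ‖)
      (fun _ _ => sum_nonneg fun _ _ => norm_nonneg _) (mem_range.2 hj)
  have hAj0 : 0 ≤ ∑ θ ∈ Λ j, ‖c j θ‖ := sum_nonneg fun _ _ => norm_nonneg _
  have e1 : (∑ θ ∈ Λ j, ‖c j θ‖) * (2 * (p * (δ / (2 * (A + 1) * p)))) ≤ δ := by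
    have e2 : 2 * (p * (δ / (2 * (A + 1) * p))) = δ / (A + 1) := by
      field_simp
    rw [e2, mul_div_assoc', div_le_iff₀ (by positivity), mul_comm]
    exact mul_le_mul_of_nonneg_left (by linarith) hδ.le
  have e0 : 0 ≤ (∑ θ ∈ Λ j, ‖c j θ‖) * (p * (δ / (2 * (A + 1) * p))) := by positivity
  refine ⟨fun x => (one1 (hΛ j hj).1 hζ x).trans (by linarith), fun x y hxy => ?_⟩
  refine (one2 (hΛ j hj).1 (h j hj).2.2.1 (hΛ j hj).2 hζ x y hxy).trans ?_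
  have e3 : (∑ θ ∈ Λ j, ‖c j θ‖) * (2 * (p * (p * (δ / (2 * (A + 1) * p))))) =
      (∑ θ ∈ Λ j, ‖c j θ‖) * (2 * (p * (δ / (2 * (A + 1) * p)))) * p := by ring
  rw [e3]
  exact mul_le_mul_of_nonneg_right e1 hp0.le

end Pool.Agent.W880.TF
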